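import Pool.Agent.H110R3.Urn.Stmts

/-!
# Task M1 of the project H110-URN: from the killed operator to the process
-/

namespace Pool.Agent.H265R3.UrnM1

open MeasureTheory Filter Topology Pool.Agent.H110R3.Urn

theorem st_congr {m : ℕ} (G : SimpleGraph (Fin m)) [DecidableRel G.Adj] (b0 : Fin m → ℕ)
    (s s' : ℕ → Ch G) (n : ℕ) (h : ∀ k < n, s k = s' k) : st G b0 s n = st G b0 s' n := by
  induction n with
  | zero => rfl
  | succ n ih =>
    show stp G (st G b0 s n) (s n) = stp G (st G b0 s' n) (s' n)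
    rw [ih fun k hk => h k (Nat.lt_succ_of_lt hk), h n (Nat.lt_succ_self n)]

theorem st_measurable {m : ℕ} (G : SimpleGraph (Fin m)) [DecidableRel G.Adj] (b0 : Fin m → ℕ)
    {Ω : Type} [MeasurableSpace Ω] (c : ℕ → Ω → Ch G) (hc : ∀ n, Measurable (c n)) (n : ℕ) :
    Measurable fun ω => st G b0 (fun k => c k ω) n := by
  induction n with
  | zero => exact measurable_const
  | succ n ih =>
    exact (Measurable.of_discrete (f := fun p : (Fin m → ℕ) × Ch G => stp G p.1 p.2)).comp
      (ih.prodMk (hc n))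

theorem qq_bound (hA1 : TaskA1) {m : ℕ} (G : SimpleGraph (Fin m)) [DecidableRel G.Adj] (α : ℝ)
    (U : Set (Fin m → ℕ)) [DecidablePred (· ∈ U)] (j : ℕ) :
    ∀ b : Fin m → ℕ, (∀ i, 1 ≤ b i) → 0 ≤ qq G α U j b ∧ qq G α U j b ≤ 1 := by
  induction j with
  | zero =>
    intro b _
    show 0 ≤ (1 : ℝ) ∧ (1 : ℝ) ≤ 1
    exact ⟨zero_le_one, le_rfl⟩
  | succ j ih =>
    intro b hb
    obtain ⟨h0, h1, -⟩ := hA1 m G α b hb
    have hstp : ∀ s : Ch G, ∀ i, 1 ≤ stp G b s i := fun s i =>
      (hb i).trans (Nat.le_add_right _ _)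
    have e : qq G α U (j + 1) b = KK G α U (qq G α U j) b := by
      unfold qq
      rw [Function.iterate_succ_apply']
    rw [e]
    unfold KK PP
    split_ifs with hU
    · refine ⟨Finset.sum_nonneg fun s _ => mul_nonneg (h0 s) (ih _ (hstp s)).1, ?_⟩
      rw [← h1]
      exact Finset.sum_le_sum fun s _ => mul_le_of_le_one_right (h0 s) (ih _ (hstp s)).2
    · exact ⟨le_rfl, zero_le_one⟩

theorem taskM1 : TaskM1 := by
  intro hA1 hA3 hM0 m G _ hm hNE α U _ S1 hq b0 hb0 Ω _ P _ c hc n
  classical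
  have h7 := fun s : ℕ → Ch G => (hA3 m G hm).2.2.2.2.2.2 b0 s hb0
  obtain ⟨n', hn', hS⟩ : ∃ n' : ℕ, n ≤ n' ∧ S1 ≤ tot b0 + n' * NE G := by
    obtain ⟨k, hk⟩ := exists_nat_ge (S1 - tot b0)
    refine ⟨max n k, le_max_left _ _, ?_⟩
    have h1 : (k : ℝ) ≤ ((max n k : ℕ) : ℝ) := by exact_mod_cast le_max_right n k
    have h2 : (1 : ℝ) ≤ (NE G : ℝ) := by exact_mod_cast hNE
    have h3 : ((max n k : ℕ) : ℝ) ≤ ((max n k : ℕ) : ℝ) * NE G :=
      le_mul_of_one_le_right (Nat.cast_nonneg _) h2
    linarith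
  have hxm : ∀ k, Measurable fun ω => st G b0 (fun k => c k ω) k := st_measurable G b0 c hc.meas
  set Ψ : ℕ → (ℕ → Ch G) → ℝ := fun j s => if ∀ i < j, st G b0 s (n' + i) ∈ U then 1 else 0
    with hΨ
  have hdep : ∀ j : ℕ, ∀ s s' : ℕ → Ch G, (∀ k < n' + j, s k = s' k) →
      Ψ (j + 1) s = Ψ (j + 1) s' := by
    intro j s s' h
    have : ∀ i < j + 1, st G b0 s (n' + i) = st G b0 s' (n' + i) := fun i hi =>
      st_congr G b0 s s' _ fun k hk => h k (by omega)
    simp only [hΨ]
    refine if_congr ?_ rfl rfl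
    exact forall₂_congr fun i hi => by rw [this i hi]
  have hM : ∀ (j : ℕ) (F : (Fin m → ℕ) → ℝ),
      ∫ ω, Ψ j (fun k => c k ω) * F (st G b0 (fun k => c k ω) (n' + j)) ∂P =
        ∫ ω, ((KK G α U)^[j] F) (st G b0 (fun k => c k ω) n') ∂P := by
    intro j
    induction j with
    | zero =>
      intro F
      refine integral_congr_ae (Eventually.of_forall fun ω => ?_)
      simp [hΨ]
    | succ j ih =>
      intro F
      have h1 := (hM0 hA1 m G α b0 hb0 Ω P c hc (n' + j) (Ψ (j + 1)) (hdep j)).2 F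
      have h2 : ∫ ω, Ψ (j + 1) (fun k => c k ω) *
          PP G α F (st G b0 (fun k => c k ω) (n' + j)) ∂P =
          ∫ ω, Ψ j (fun k => c k ω) * KK G α U F (st G b0 (fun k => c k ω) (n' + j)) ∂P := by
        refine integral_congr_ae (Eventually.of_forall fun ω => ?_)
        simp only [hΨ, KK]
        by_cases hU : st G b0 (fun k => c k ω) (n' + j) ∈ U
        · rw [if_pos hU]
          congr 1
          refine if_congr ?_ rfl rfl
          constructor
          · intro h i hi
            exact h i (Nat.lt_succ_of_lt hi)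
          · intro h i hi
            rcases Nat.lt_succ_iff_lt_or_eq.1 hi with h' | h'
            · exact h i h'
            · rw [h']; exact hU
        · rw [if_neg hU, if_neg fun h => hU (h j (Nat.lt_succ_self j)), zero_mul, mul_zero]
      calc ∫ ω, Ψ (j + 1) (fun k => c k ω) * F (st G b0 (fun k => c k ω) (n' + (j + 1))) ∂P
          = ∫ ω, Ψ (j + 1) (fun k => c k ω) *
              PP G α F (st G b0 (fun k => c k ω) (n' + j)) ∂P := h1
        _ = _ := h2
        _ = _ := ih (KK G α U F)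
        _ = _ := by rw [Function.iterate_succ_apply]
  set A : ℕ → Set Ω := fun j => {ω | ∀ i < j, st G b0 (fun k => c k ω) (n' + i) ∈ U} with hA
  have hAm : ∀ j, MeasurableSet (A j) := by
    intro j
    have e : A j = ⋂ i, ⋂ (_ : i < j), (fun ω => st G b0 (fun k => c k ω) (n' + i)) ⁻¹' U := by
      ext ω
      simp [hA]
    rw [e]
    exact MeasurableSet.iInter fun i => MeasurableSet.iInter fun _ =>
      hxm (n' + i) (MeasurableSet.of_discrete)
  have hPA : ∀ j, P (A j) =
      ENNReal.ofReal (∫ ω, qq G α U j (st G b0 (fun k => c k ω) n') ∂P) := by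
    intro j
    have h1 := hM j fun _ => 1
    have h2 : ∫ ω, Ψ j (fun k => c k ω) * 1 ∂P = P.real (A j) := by
      rw [← integral_indicator_one (hAm j)]
      refine integral_congr_ae (Eventually.of_forall fun ω => ?_)
      simp only [hΨ, mul_one]
      by_cases h : ω ∈ A j
      · rw [Set.indicator_of_mem h]
        exact if_pos h
      · rw [Set.indicator_of_notMem h]
        exact if_neg h
    have h3 : ∫ ω, qq G α U j (st G b0 (fun k => c k ω) n') ∂P = P.real (A j) := by
      rw [← h2]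
      exact h1.symm
    rw [h3, Measure.real, ENNReal.ofReal_toReal (measure_ne_top P _)]
  have hb : ∀ ω, ∀ i, 1 ≤ st G b0 (fun k => c k ω) n' i := fun ω i =>
    (h7 fun k => c k ω).2.1 n' i
  have hlim : Tendsto (fun j => ∫ ω, qq G α U j (st G b0 (fun k => c k ω) n') ∂P) atTop (𝓝 0) := by
    have h0 : (0 : ℝ) = ∫ _ω : Ω, (0 : ℝ) ∂P := by simp
    rw [h0]
    refine tendsto_integral_of_dominated_convergence (fun _ => (1 : ℝ)) ?_ (integrable_const _)
      ?_ ?_
    · intro j
      exact ((Measurable.of_discrete (f := qq G α U j)).comp (hxm n')).aestronglyMeasurable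
    · intro j
      refine Eventually.of_forall fun ω => ?_
      have := qq_bound hA1 G α U j _ (hb ω)
      rw [Real.norm_eq_abs, abs_of_nonneg this.1]
      exact this.2
    · refine Eventually.of_forall fun ω => ?_
      refine hq _ (hb ω) ?_
      rw [(h7 fun k => c k ω).1 n']
      exact hS
  have hlim' : Tendsto (fun j => P (A j)) atTop (𝓝 0) := by
    have := ENNReal.tendsto_ofReal hlim
    rw [ENNReal.ofReal_zero] at this
    exact this.congr fun j => (hPA j).symm
  have hle : ∀ j, P {ω | ∀ k ≥ n, st G b0 (fun k => c k ω) k ∈ U} ≤ P (A j) := fun j =>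
    measure_mono fun ω h i _ => h (n' + i) (by omega)
  exact le_antisymm (ge_of_tendsto' hlim' hle) bot_le

end Pool.Agent.H265R3.UrnM1
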