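import Pool.Agent.H854R3.CR.Stmts

/-!
# Task Pow of the project H854-CR
-/

set_option autoImplicit false

namespace Pool.Agent.H265R3.CRPow

open Pool.Agent.H854R3.NE Pool.Agent.H854R3.CR

section ring

variable {A : Type} [Ring A]

/-- `A = span W + J` for a finite set `W`. -/
def Cof (J : Ideal A) : Prop :=
  ∃ W : Set A, W.Finite ∧ ∀ a : A, ∃ m ∈ Submodule.span ℤ W, a - m ∈ J

/-- a finite set which generates `A`, in the form of an induction principle -/
def Gen (S : Set A) : Prop :=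
  ∀ T : AddSubgroup A, (1 : A) ∈ T → (∀ x ∈ S, ∀ y ∈ T, x * y ∈ T) → T = ⊤

theorem span_int_le {G : Set A} {J : Ideal A} (h : G ⊆ J) {x : A}
    (hx : x ∈ Submodule.span ℤ G) : x ∈ J := by
  have : Submodule.span ℤ G ≤ J.restrictScalars ℤ := Submodule.span_le.2 h
  exact this hx

theorem fg_of_cof {S : Set A} (hSf : S.Finite) (hS : Gen S) (J : Ideal A) (hJ : Cof J) :
    ∃ G : Set A, G.Finite ∧ J = Ideal.span G := by
  classical
  obtain ⟨W0, hW0, hW0J⟩ := hJ
  set W : Set A := insert 1 W0 with hW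
  have hWf : W.Finite := hW0.insert 1
  have hWJ : ∀ a : A, ∃ m ∈ Submodule.span ℤ W, a - m ∈ J := fun a => by
    obtain ⟨m, hm, h⟩ := hW0J a
    exact ⟨m, Submodule.span_mono (Set.subset_insert _ _) hm, h⟩
  set M : Submodule ℤ A := Submodule.span ℤ W with hM
  choose mm hmm hmJ using hWJ
  set G1 : Set A := (fun p : A × A => p.1 * p.2 - mm (p.1 * p.2)) '' (S ×ˢ W) with hG1d
  have hG1 : G1.Finite := (hSf.prod hWf).image _
  have hMfg : M.FG := Submodule.fg_span hWf
  obtain ⟨G2, hG2⟩ := Submodule.FG.of_le hMfg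
    (inf_le_left : M ⊓ (J.restrictScalars ℤ) ≤ M)
  have hG2J : (G2 : Set A) ⊆ J := by
    intro x hx
    have h1 : x ∈ Submodule.span ℤ (G2 : Set A) := Submodule.subset_span hx
    rw [hG2] at h1
    exact h1.2
  have hG1J : G1 ⊆ J := by
    rintro _ ⟨p, _, rfl⟩
    exact hmJ _
  refine ⟨G1 ∪ G2, hG1.union G2.finite_toSet, ?_⟩
  set J0 : Ideal A := Ideal.span (G1 ∪ (G2 : Set A)) with hJ0
  have hJ0J : J0 ≤ J := Ideal.span_le.2 (Set.union_subset hG1J hG2J)
  let T : AddSubgroup A :=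
    { carrier := {a | ∃ m ∈ M, a - m ∈ J0}
      zero_mem' := ⟨0, M.zero_mem, by rw [sub_zero]; exact J0.zero_mem⟩
      add_mem' := by
        rintro a b ⟨m, hm, ha⟩ ⟨m', hm', hb⟩
        refine ⟨m + m', M.add_mem hm hm', ?_⟩
        rw [add_sub_add_comm]
        exact J0.add_mem ha hb
      neg_mem' := by
        rintro a ⟨m, hm, ha⟩
        refine ⟨-m, M.neg_mem hm, ?_⟩
        have : -a - -m = -(a - m) := by abel
        rw [this]
        exact J0.neg_mem ha }
  have hT1 : (1 : A) ∈ T :=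
    ⟨1, Submodule.subset_span (Set.mem_insert _ _), by rw [sub_self]; exact J0.zero_mem⟩
  have hTS : ∀ x ∈ S, ∀ y ∈ T, x * y ∈ T := by
    rintro x hx y ⟨m, hm, hy⟩
    have h1 : ∀ m ∈ M, x * m ∈ T := by
      intro m hm
      induction hm using Submodule.span_induction with
      | mem w hw =>
        exact ⟨mm (x * w), hmm _, Ideal.subset_span (Or.inl ⟨(x, w), ⟨hx, hw⟩, rfl⟩)⟩
      | zero => rw [mul_zero]; exact T.zero_mem
      | add a b _ _ ha hb => rw [mul_add]; exact T.add_mem ha hb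
      | smul k a _ ha => rw [mul_smul_comm]; exact T.zsmul_mem ha k
    have h2 : x * (y - m) ∈ T :=
      ⟨0, M.zero_mem, by rw [sub_zero]; exact J0.mul_mem_left x hy⟩
    have h3 : x * y = x * m + x * (y - m) := by rw [← mul_add]; congr 1; abel
    rw [h3]
    exact T.add_mem (h1 m hm) h2
  have hT := hS T hT1 hTS
  refine le_antisymm ?_ hJ0J
  intro j hj
  have hjT : j ∈ T := by rw [hT]; trivial
  obtain ⟨m, hm, hjm⟩ := hjT
  have hmJ' : m ∈ J := by
    have : m = j - (j - m) := by abel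
    rw [this]
    exact J.sub_mem hj (hJ0J hjm)
  have h4 : m ∈ Submodule.span ℤ (G2 : Set A) := by
    rw [hG2]
    exact ⟨hm, hmJ'⟩
  have h5 : m ∈ J0 := span_int_le
    (Set.subset_union_right.trans Ideal.subset_span) h4
  have : j = m + (j - m) := by abel
  rw [this]
  exact J0.add_mem h5 hjm

/-- the product of two ideals -/
def pr (K J : Ideal A) : Ideal A := Ideal.span {z | ∃ k ∈ K, ∃ j ∈ J, z = k * j}

theorem mul_mem_pr {K J : Ideal A} {k j : A} (hk : k ∈ K) (hj : j ∈ J) : k * j ∈ pr K J :=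
  Ideal.subset_span ⟨k, hk, j, hj, rfl⟩

theorem cof_pr {K J : Ideal A} (hK : Cof K) (hJ : Cof J) {G : Set A} (hG : G.Finite)
    (hJG : J = Ideal.span G) : Cof (pr K J) := by
  obtain ⟨W, hW, hWJ⟩ := hJ
  obtain ⟨W1, hW1, hWK⟩ := hK
  set W2 : Set A := (fun p : A × A => p.1 * p.2) '' (W1 ×ˢ G) with hW2
  refine ⟨W ∪ W2, hW.union ((hW1.prod hG).image _), fun a => ?_⟩
  obtain ⟨m, hm, hj⟩ := hWJ a
  have hmul : ∀ m ∈ Submodule.span ℤ W1, ∀ g ∈ G, m * g ∈ Submodule.span ℤ W2 := by
    intro m hm g hg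
    induction hm using Submodule.span_induction with
    | mem w hw => exact Submodule.subset_span ⟨(w, g), ⟨hw, hg⟩, rfl⟩
    | zero => rw [zero_mul]; exact Submodule.zero_mem _
    | add a b _ _ ha hb => rw [add_mul]; exact Submodule.add_mem _ ha hb
    | smul k a _ ha => rw [smul_mul_assoc]; exact Submodule.smul_mem _ k ha
  have key : ∀ j ∈ J, ∃ m' ∈ Submodule.span ℤ W2, j - m' ∈ pr K J := by
    intro j hj
    rw [hJG] at hj
    refine Submodule.closure_induction
      (p := fun j _ => ∃ m' ∈ Submodule.span ℤ W2, j - m' ∈ pr K J) ?_ ?_ ?_ hj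
    · exact ⟨0, Submodule.zero_mem _, by rw [sub_zero]; exact Ideal.zero_mem _⟩
    · rintro x y _ _ ⟨m1, h1, h1'⟩ ⟨m2, h2, h2'⟩
      refine ⟨m1 + m2, Submodule.add_mem _ h1 h2, ?_⟩
      rw [add_sub_add_comm]
      exact Ideal.add_mem _ h1' h2'
    · intro r g hg
      obtain ⟨m1, hm1, hk1⟩ := hWK r
      have hgJ : g ∈ J := by rw [hJG]; exact Ideal.subset_span hg
      refine ⟨m1 * g, hmul m1 hm1 g hg, ?_⟩
      · have : r • g - m1 * g = (r - m1) * g := by rw [smul_eq_mul, sub_mul]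
        rw [this]
        exact mul_mem_pr hk1 hgJ
  obtain ⟨m', hm', h'⟩ := key _ hj
  refine ⟨m + m', Submodule.add_mem _ (Submodule.span_mono Set.subset_union_left hm)
    (Submodule.span_mono Set.subset_union_right hm'), ?_⟩
  have : a - (m + m') = a - m - m' := by abel
  rw [this]
  exact h'

/-- the powers of `K` -/
def Jt (K : Ideal A) : ℕ → Ideal A
  | 0 => ⊤
  | t + 1 => pr K (Jt K t)

theorem Jt_cof {S : Set A} (hSf : S.Finite) (hS : Gen S) {K : Ideal A} (hK : Cof K) (t : ℕ) :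
    Cof (Jt K t) ∧ ∃ G : Set A, G.Finite ∧ Jt K t = Ideal.span G := by
  induction t with
  | zero =>
    have h : Cof (Jt K 0) := ⟨∅, Set.finite_empty, fun a => ⟨0, Submodule.zero_mem _, trivial⟩⟩
    exact ⟨h, fg_of_cof hSf hS _ h⟩
  | succ t ih =>
    obtain ⟨h1, G, hG, hJG⟩ := ih
    have h : Cof (Jt K (t + 1)) := cof_pr hK h1 hG hJG
    exact ⟨h, fg_of_cof hSf hS _ h⟩

theorem pr_le_closure {K J : Ideal A} {z : A} (hz : z ∈ pr K J) :
    z ∈ AddSubgroup.closure {z | ∃ k ∈ K, ∃ j ∈ J, z = k * j} := by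
  refine Submodule.closure_induction
    (p := fun z _ => z ∈ AddSubgroup.closure {z | ∃ k ∈ K, ∃ j ∈ J, z = k * j}) ?_ ?_ ?_ hz
  · exact AddSubgroup.zero_mem _
  · intro x y _ _ hx hy
    exact AddSubgroup.add_mem _ hx hy
  · rintro r x ⟨k, hk, j, hj, rfl⟩
    rw [smul_eq_mul, ← mul_assoc]
    exact AddSubgroup.subset_closure ⟨r * k, K.mul_mem_left r hk, j, hj, rfl⟩

/-- `K ^ (s + t) ⊆ K ^ s K ^ t` -/
theorem Jt_add (K : Ideal A) (s t : ℕ) : ∀ z ∈ Jt K (s + t),
    z ∈ AddSubgroup.closure {z | ∃ x ∈ Jt K s, ∃ y ∈ Jt K t, z = x * y} := by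
  induction s with
  | zero =>
    intro z hz
    rw [Nat.zero_add] at hz
    exact AddSubgroup.subset_closure ⟨1, trivial, z, hz, (one_mul z).symm⟩
  | succ s ih =>
    intro z hz
    have e : s + 1 + t = (s + t) + 1 := by omega
    rw [e] at hz
    have h1 : z ∈ AddSubgroup.closure {z | ∃ k ∈ K, ∃ j ∈ Jt K (s + t), z = k * j} :=
      pr_le_closure hz
    refine (AddSubgroup.closure_le _).2 ?_ h1
    rintro _ ⟨k, hk, j, hj, rfl⟩
    have h2 := ih j hj
    have h3 : ∀ j ∈ AddSubgroup.closure {z | ∃ x ∈ Jt K s, ∃ y ∈ Jt K t, z = x * y},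
        k * j ∈ AddSubgroup.closure {z | ∃ x ∈ Jt K (s + 1), ∃ y ∈ Jt K t, z = x * y} := by
      intro j hj
      induction hj using AddSubgroup.closure_induction with
      | mem x hx =>
        obtain ⟨x, hx, y, hy, rfl⟩ := hx
        rw [← mul_assoc]
        exact AddSubgroup.subset_closure ⟨k * x, mul_mem_pr hk hx, y, hy, rfl⟩
      | zero => rw [mul_zero]; exact AddSubgroup.zero_mem _
      | add x y _ _ hx hy => rw [mul_add]; exact AddSubgroup.add_mem _ hx hy
      | neg x _ hx => rw [mul_neg]; exact AddSubgroup.neg_mem _ hx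
    exact h3 j h2

/-- the two-sided ideal generated by `P` and `a`: membership -/
theorem exists_prime {S : Set A} (hSf : S.Finite) (hS : Gen S) {K : Ideal A} (hK : Cof K)
    (hne : ∀ t, Jt K t ≠ ⊥) :
    ∃ P : TwoSidedIdeal A, (∀ t, ¬ ∀ x ∈ Jt K t, x ∈ P) ∧
      ∀ a b : A, (∀ r, a * r * b ∈ P) → a ∈ P ∨ b ∈ P := by
  classical
  obtain ⟨P, hP, hmax⟩ := exists_max_ideal (R := A)
    (fun P : TwoSidedIdeal A => ∀ t, ¬ ∀ x ∈ Jt K t, x ∈ P)
    (by
      intro t h
      apply hne t
      rw [eq_bot_iff]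
      intro x hx
      exact (TwoSidedIdeal.mem_bot A).1 (h x hx))
    (by
      intro c hc hcne hcP U hU t ht
      obtain ⟨-, G, hG, hJG⟩ := Jt_cof hSf hS hK t
      have hGJ : ∀ g ∈ G, g ∈ Jt K t := fun g hg => by
        rw [hJG]; exact Ideal.subset_span hg
      have h1 : ∃ I ∈ c, ∀ g ∈ G, g ∈ I := by
        refine hG.induction_on_subset (motive := fun G' _ => ∃ I ∈ c, ∀ g ∈ G', g ∈ I) G ?_ ?_
        · obtain ⟨I, hI⟩ := hcne
          exact ⟨I, hI, fun g hg => absurd hg (Set.notMem_empty g)⟩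
        · intro a G' ha hG' _ ih
          obtain ⟨I, hI, hI'⟩ := ih
          obtain ⟨I2, hI2, haI2⟩ := (hU a).1 (ht a (hGJ a ha))
          rcases hc.total hI hI2 with h | h
          · refine ⟨I2, hI2, fun g hg => ?_⟩
            rcases hg with rfl | hg
            · exact haI2
            · exact h (hI' g hg)
          · refine ⟨I, hI, fun g hg => ?_⟩
            rcases hg with rfl | hg
            · exact h haI2
            · exact hI' g hg
      obtain ⟨I, hI, hGI⟩ := h1
      apply hcP I hI t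
      intro x hx
      rw [hJG] at hx
      refine Submodule.span_induction (p := fun x _ => x ∈ I) (fun x hx => hGI x hx) I.zero_mem
        (fun x y _ _ hx hy => I.add_mem hx hy) (fun r x _ hx => I.mul_mem_left r x hx) hx)
  refine ⟨P, hP, ?_⟩
  intro a b hab
  by_contra hcon
  push Not at hcon
  obtain ⟨ha, hb⟩ := hcon
  -- `X a = {x | ...}`: two-sided ideals `P1 = {x | ∀ r, x r b ∈ P}` contains `P` and `a`
  let P1 : TwoSidedIdeal A := TwoSidedIdeal.mk' {x | ∀ r, x * r * b ∈ P}
    (by intro r; rw [zero_mul, zero_mul]; exact P.zero_mem)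
    (by intro x y hx hy r; rw [add_mul, add_mul]; exact P.add_mem (hx r) (hy r))
    (by intro x hx r; rw [neg_mul, neg_mul]; exact P.neg_mem (hx r))
    (by
      intro x y hy r
      have : x * y * r * b = x * (y * r * b) := by noncomm_ring
      rw [this]; exact P.mul_mem_left _ _ (hy r))
    (by
      intro x y hx r
      have : x * y * r * b = x * (y * r) * b := by noncomm_ring
      rw [this]; exact hx (y * r))
  have hP1 : ∀ x, x ∈ P1 ↔ ∀ r, x * r * b ∈ P := fun x => TwoSidedIdeal.mem_mk' _ _ _ _ _ _ x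
  have hPP1 : P ≤ P1 := by
    intro x hx
    rw [hP1]
    intro r
    exact P.mul_mem_right _ _ (P.mul_mem_right _ _ hx)
  have h1 : ∃ s, ∀ x ∈ Jt K s, x ∈ P1 := by
    by_contra hc
    push Not at hc
    have : P1 = P := hmax P1 (fun t h => by
      obtain ⟨x, hx, hx'⟩ := hc t
      exact hx' (h x hx)) hPP1
    apply ha
    rw [← this, hP1]
    exact hab
  obtain ⟨s, hs⟩ := h1
  let P2 : TwoSidedIdeal A := TwoSidedIdeal.mk' {y | ∀ x ∈ P1, x * y ∈ P}
    (by intro x _; rw [mul_zero]; exact P.zero_mem)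
    (by intro y z hy hz x hx; rw [mul_add]; exact P.add_mem (hy x hx) (hz x hx))
    (by intro y hy x hx; rw [mul_neg]; exact P.neg_mem (hy x hx))
    (by
      intro y z hz x hx
      rw [← mul_assoc]; exact hz _ (P1.mul_mem_right _ _ hx))
    (by
      intro y z hy x hx
      rw [← mul_assoc]; exact P.mul_mem_right _ _ (hy x hx))
  have hP2 : ∀ y, y ∈ P2 ↔ ∀ x ∈ P1, x * y ∈ P := fun x => TwoSidedIdeal.mem_mk' _ _ _ _ _ _ x
  have hPP2 : P ≤ P2 := by
    intro y hy
    rw [hP2]
    intro x _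
    exact P.mul_mem_left _ _ hy
  have hbP2 : b ∈ P2 := by
    rw [hP2]
    intro x hx
    have := (hP1 x).1 hx 1
    rwa [mul_one] at this
  have h2 : ∃ t, ∀ x ∈ Jt K t, x ∈ P2 := by
    by_contra hc
    push Not at hc
    have : P2 = P := hmax P2 (fun t h => by
      obtain ⟨x, hx, hx'⟩ := hc t
      exact hx' (h x hx)) hPP2
    apply hb
    rw [← this]
    exact hbP2
  obtain ⟨t, ht⟩ := h2
  apply hP (s + t)
  intro z hz
  have h3 := Jt_add K s t z hz
  clear hz
  induction h3 using AddSubgroup.closure_induction with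
  | mem z hz =>
    obtain ⟨x, hx, y, hy, rfl⟩ := hz
    exact (hP2 y).1 (ht y hy) x (hs x hx)
  | zero => exact P.zero_mem
  | add x y _ _ hx hy => exact P.add_mem hx hy
  | neg x _ hx => exact P.neg_mem hx

end ring

/-- The statement for a ring `A` which is additively generated by `1` and the image of `R`. -/
theorem pow_aux {R A : Type} [NonUnitalRing R] [Ring A] (ι : R →ₙ+* A) (fst : A → ℤ) (snd : A →+ R)
    (hdec : ∀ a : A, a = fst a • (1 : A) + ι (snd a)) (hsnd : Function.Surjective snd)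
    (hFG : FGen R)
    (hNil : ∀ (Q : Type) [Ring Q] (φ : A →+* Q), Function.Surjective φ → PrimeU Q →
      ∀ N : TwoSidedIdeal Q, (∀ x ∈ N, ∃ k, x ^ k = 0) → (∀ x ∈ N, ∃ r : R, φ (ι r) = x) → N = ⊥)
    (K : AddSubgroup R) (hKf : K.FiniteIndex)
    (hK : ∀ r x : R, x ∈ K → r * x ∈ K ∧ x * r ∈ K) (hKnil : ∀ x ∈ K, ∃ k, npw x k = 0) :
    AddGroup.FG R := by
  classical
  obtain ⟨S, hSf, hS⟩ := hFG
  have hGen : Gen (ι '' S) := by
    intro T h1 hST
    have h2 : ∀ r : R, ∀ y ∈ T, ι r * y ∈ T := by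
      intro r
      have hr : r ∈ NonUnitalSubring.closure S := by rw [hS]; trivial
      induction hr using NonUnitalSubring.closure_induction with
      | mem x hx => exact fun y hy => hST _ ⟨x, hx, rfl⟩ y hy
      | zero => intro y _; rw [map_zero, zero_mul]; exact T.zero_mem
      | add x z _ _ hx hz => intro y hy; rw [map_add, add_mul]; exact T.add_mem (hx y hy) (hz y hy)
      | neg x _ hx => intro y hy; rw [map_neg, neg_mul]; exact T.neg_mem (hx y hy)
      | mul x z _ _ hx hz => intro y hy; rw [map_mul, mul_assoc]; exact hx _ (hz y hy)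
    rw [eq_top_iff]
    intro a _
    rw [hdec a]
    refine T.add_mem (T.zsmul_mem h1 _) ?_
    have := h2 (snd a) 1 h1
    rwa [mul_one] at this
  -- the ideal `K'`
  let K' : Ideal A :=
    { carrier := {x | ∃ r ∈ K, x = ι r}
      zero_mem' := ⟨0, K.zero_mem, (map_zero ι).symm⟩
      add_mem' := by
        rintro _ _ ⟨r, hr, rfl⟩ ⟨s, hs, rfl⟩
        exact ⟨r + s, K.add_mem hr hs, (map_add ι r s).symm⟩
      smul_mem' := by
        rintro a _ ⟨r, hr, rfl⟩
        refine ⟨fst a • r + snd a * r, K.add_mem (K.zsmul_mem hr _) (hK _ _ hr).1, ?_⟩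
        conv_lhs => rw [smul_eq_mul, hdec a]
        rw [add_mul, smul_mul_assoc, one_mul, map_add, map_mul, map_zsmul] }
  have hK' : ∀ x, x ∈ K' ↔ ∃ r ∈ K, x = ι r := fun x => Iff.rfl
  have hCof : Cof K' := by
    -- representatives of `R / K`
    have : Finite (R ⧸ K) := AddSubgroup.finite_quotient_of_finiteIndex
    let rep : R ⧸ K → R := Quotient.out
    refine ⟨insert 1 (Set.range fun q => ι (rep q)), (Set.finite_range _).insert 1, fun a => ?_⟩
    have h1 : snd a - rep (snd a : R ⧸ K) ∈ K := by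
      have h2 : ((rep (snd a : R ⧸ K) : R) : R ⧸ K) = (snd a : R ⧸ K) := Quotient.out_eq _
      have h3 := (QuotientAddGroup.eq (s := K)).1 h2
      rwa [neg_add_eq_sub] at h3
    refine ⟨fst a • 1 + ι (rep (snd a : R ⧸ K)), ?_, ?_⟩
    · exact Submodule.add_mem _ (Submodule.smul_mem _ _ (Submodule.subset_span
        (Set.mem_insert _ _))) (Submodule.subset_span (Or.inr ⟨_, rfl⟩))
    · rw [hK']
      refine ⟨_, h1, ?_⟩
      have hd : a - fst a • (1 : A) = ι (snd a) := sub_eq_of_eq_add' (hdec a)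
      rw [map_sub, ← hd]
      abel
  by_cases hne : ∀ t, Jt K' t ≠ ⊥
  · exfalso
    obtain ⟨P, hP, hprime⟩ := exists_prime (hSf.image ι) hGen hCof hne
    let φ : A →+* P.ringCon.Quotient := P.ringCon.mk'
    have hφs : Function.Surjective φ := by
      intro x
      obtain ⟨y, rfl⟩ := Quotient.exists_rep x
      exact ⟨y, rfl⟩
    have hφ0 : ∀ x, φ x = 0 ↔ x ∈ P := by
      intro x
      rw [TwoSidedIdeal.mem_iff]
      exact RingCon.eq P.ringCon
    let N : TwoSidedIdeal P.ringCon.Quotient := TwoSidedIdeal.mk' {y | ∃ r ∈ K, φ (ι r) = y}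
      ⟨0, K.zero_mem, by rw [map_zero, map_zero]⟩
      (by
        rintro _ _ ⟨r, hr, rfl⟩ ⟨s, hs, rfl⟩
        exact ⟨r + s, K.add_mem hr hs, by rw [map_add, map_add]⟩)
      (by
        rintro _ ⟨r, hr, rfl⟩
        exact ⟨-r, K.neg_mem hr, by rw [map_neg, map_neg]⟩)
      (by
        rintro x _ ⟨r, hr, rfl⟩
        obtain ⟨a, rfl⟩ := hφs x
        refine ⟨fst a • r + snd a * r, K.add_mem (K.zsmul_mem hr _) (hK _ _ hr).1, ?_⟩
        rw [← map_mul]
        congr 1
        conv_rhs => rw [hdec a]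
        rw [add_mul, smul_mul_assoc, one_mul, map_add, map_mul, map_zsmul])
      (by
        rintro _ x ⟨r, hr, rfl⟩
        obtain ⟨a, rfl⟩ := hφs x
        refine ⟨fst a • r + r * snd a, K.add_mem (K.zsmul_mem hr _) (hK _ _ hr).2, ?_⟩
        rw [← map_mul]
        congr 1
        conv_rhs => rw [hdec a]
        rw [mul_add, mul_smul_comm, mul_one, map_add, map_mul, map_zsmul])
    have hN : ∀ x, x ∈ N ↔ ∃ r ∈ K, φ (ι r) = x := fun x => TwoSidedIdeal.mem_mk' _ _ _ _ _ _ x
    have hpw : ∀ (r : R) (k : ℕ), ι (npw r k) = (ι r) ^ (k + 1) := by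
      intro r k
      induction k with
      | zero => simp [npw]
      | succ k ih => rw [npw, map_mul, ih, ← pow_succ]
    have hbot := hNil P.ringCon.Quotient φ hφs (by
        intro a b hab
        obtain ⟨a, rfl⟩ := hφs a
        obtain ⟨b, rfl⟩ := hφs b
        rw [hφ0, hφ0]
        apply hprime
        intro r
        rw [← hφ0, map_mul, map_mul]
        exact hab (φ r)) N
      (by
        intro x hx
        obtain ⟨r, hr, rfl⟩ := (hN x).1 hx
        obtain ⟨k, hk⟩ := hKnil r hr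
        refine ⟨k + 1, ?_⟩
        rw [← map_pow, ← hpw, hk, map_zero, map_zero])
      (by
        intro x hx
        obtain ⟨r, hr, rfl⟩ := (hN x).1 hx
        exact ⟨r, rfl⟩)
    apply hP 1
    intro x hx
    have h1 := pr_le_closure (K := K') (J := ⊤) hx
    have h2 : ∀ k ∈ K', k ∈ P := by
      rintro _ ⟨r, hr, rfl⟩
      rw [← hφ0]
      have h3 : φ (ι r) ∈ N := (hN _).2 ⟨r, hr, rfl⟩
      rw [hbot] at h3
      exact (TwoSidedIdeal.mem_bot _).1 h3
    clear hx
    induction h1 using AddSubgroup.closure_induction with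
    | mem z hz =>
      obtain ⟨k, hk, j, _, rfl⟩ := hz
      exact P.mul_mem_right _ _ (h2 k hk)
    | zero => exact P.zero_mem
    | add x y _ _ hx hy => exact P.add_mem hx hy
    | neg x _ hx => exact P.neg_mem hx
  · push Not at hne
    obtain ⟨t, ht⟩ := hne
    obtain ⟨W, hW, hWJ⟩ := (Jt_cof (hSf.image ι) hGen hCof t).1
    rw [ht] at hWJ
    have htop : Submodule.span ℤ W = ⊤ := by
      rw [eq_top_iff]
      intro a _
      obtain ⟨m, hm, h⟩ := hWJ a
      have : a = m := sub_eq_zero.1 ((Submodule.mem_bot _).1 h)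
      rw [this]
      exact hm
    have hfin : Module.Finite ℤ A := ⟨htop ▸ Submodule.fg_span hW⟩
    have hfg : AddGroup.FG A := Module.Finite.iff_addGroup_fg.1 hfin
    exact AddGroup.fg_of_surjective (f := snd) hsnd

/-- **Task Pow.** -/
theorem taskPow : TaskPow := by
  intro R _ hFG hNil K hKf hK hKnil
  let ι : R →ₙ+* Unitization ℤ R :=
    { toFun := Unitization.inr
      map_mul' := fun x y => Unitization.inr_mul ℤ x y
      map_zero' := Unitization.inr_zero ℤ
      map_add' := fun x y => Unitization.inr_add ℤ x y }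
  let sn : Unitization ℤ R →+ R :=
    { toFun := fun a => a.snd
      map_zero' := rfl
      map_add' := fun x y => rfl }
  refine pow_aux ι (fun a => a.fst) sn ?_ (fun r => ⟨Unitization.inr r, rfl⟩) hFG ?_ K hKf hK hKnil
  · intro a
    apply Unitization.ext
    · show a.fst = (a.fst • (1 : Unitization ℤ R) + Unitization.inr a.snd).fst
      rw [Unitization.fst_add, Unitization.fst_inr, add_zero, Unitization.fst_smul,
        Unitization.fst_one, smul_eq_mul, mul_one]
    · show a.snd = (a.fst • (1 : Unitization ℤ R) + Unitization.inr a.snd).snd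
      rw [Unitization.snd_add, Unitization.snd_inr, Unitization.snd_smul, Unitization.snd_one,
        smul_zero, zero_add]
  · intro Q _ φ hφ hQ N hN hN'
    exact hNil Q φ hφ hQ N hN hN'

end Pool.Agent.H265R3.CRPow
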