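import Pool.Agent.H487R3.Cau.Stmts

set_option autoImplicit false

open MeasureTheory Filter Set Topology
open scoped ENNReal NNReal

namespace Pool.Agent.H265R3.CauPoint

open Pool.Agent.H487R3.Cau

theorem G_lower {a : ℝ → ℂ} (ha : LipschitzWith (1 / 10) a) (s t : ℝ) :
    9 / 10 * |s - t| ≤ ‖G a s - G a t‖ := by
  have h1 : ‖a s - a t‖ ≤ 1 / 10 * |s - t| := by
    have := ha.dist_le_mul s t
    rw [dist_eq_norm, Real.dist_eq] at this
    simpa using this
  have h2 : G a s - G a t = ((s - t : ℝ) : ℂ) + (a s - a t) := by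
    unfold G; push_cast; ring
  have h3 : ‖((s - t : ℝ) : ℂ)‖ = |s - t| := by
    rw [Complex.norm_real, Real.norm_eq_abs]
  have h4 : ‖((s - t : ℝ) : ℂ)‖ ≤ ‖G a s - G a t‖ + ‖a s - a t‖ := by
    rw [h2]
    have := norm_sub_le (((s - t : ℝ) : ℂ) + (a s - a t)) (a s - a t)
    simpa using this
  rw [h3] at h4
  linarith

theorem num_le {L : ℝ} {γ : ℝ → ℂ} {E : Set ℝ} {u : ℂ} {ρ κ : ℝ} {a : ℝ → ℂ}
    (hg : Good L γ E u ρ κ) (ha : LipschitzWith (1 / 10) a) (hE : ∀ s ∈ E, u * G a s = γ s)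
    {s t : ℝ} (ht : t ∈ E) (hs : s ∈ Icc (0 : ℝ) L) (hst : |s - t| < ρ) :
    ‖u * G a s - γ s‖ ≤ 3 / 20 * Metric.infDist s E := by
  have hc : IsCompact E := (isCompact_Icc (a := (0 : ℝ)) (b := L)).of_isClosed_subset hg.closed hg.sub
  obtain ⟨e, he, hde⟩ := hc.exists_infDist_eq_dist ⟨t, ht⟩ s
  have hle : dist s e ≤ dist s t := by
    rw [← hde]
    exact Metric.infDist_le_dist_of_mem ht
  rw [hde]
  rw [Real.dist_eq, Real.dist_eq] at hle
  rw [Real.dist_eq]
  have hl := hg.line e he s hs (lt_of_le_of_lt hle hst)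
  have h1 : ‖a s - a e‖ ≤ 1 / 10 * |s - e| := by
    have := ha.dist_le_mul s e
    rw [dist_eq_norm, Real.dist_eq] at this
    simpa using this
  have h2 : u * G a s - γ s = u * (a s - a e) - (γ s - γ e - u * ((s : ℂ) - e)) := by
    rw [← hE e he]
    unfold G
    ring
  rw [h2]
  have h3 : ‖u * (a s - a e)‖ ≤ 1 / 10 * |s - e| := by
    rw [norm_mul, hg.nu, one_mul]
    exact h1
  have := norm_sub_le (u * (a s - a e)) (γ s - γ e - u * ((s : ℂ) - e))
  linarith

/-- The pointwise bound of the difference of the two truncated kernels. -/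
theorem kernel_le {L : ℝ} {γ : ℝ → ℂ} {E : Set ℝ} {u : ℂ} {ρ κ : ℝ} {a : ℝ → ℂ}
    (hg : Good L γ E u ρ κ) (ha : LipschitzWith (1 / 10) a) (hE : ∀ s ∈ E, u * G a s = γ s)
    {α : ℝ} (hα : ∀ t ∈ E, α < t - 1 / 4 ∧ t + 1 / 4 < α + 1)
    {t ε : ℝ} (ht : t ∈ E) (hε : 0 < ε) (z : ℂ) {s : ℝ} (hs : s ∈ Icc (0 : ℝ) L) :
    ‖{s : ℝ | ε < ‖γ s - γ t‖}.indicator (fun s => z / (γ s - γ t)) s -
      ({s : ℝ | ε < |s - t|} ∩ Ico α (α + 1)).indicator (fun s => z / u / (G a s - G a t)) s‖ ≤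
      ‖z‖ * ((1 / κ + 2 / ρ) + Metric.infDist s E / (s - t) ^ 2 +
        (Metric.closedBall t (2 * ε)).indicator (fun _ => 3 / ε) s) := by
  have hκ := hg.κpos
  have hρ := hg.ρpos
  have hG := G_lower ha s t
  have hz : 0 ≤ ‖z‖ := norm_nonneg z
  have hI : 0 ≤ Metric.infDist s E / (s - t) ^ 2 := div_nonneg Metric.infDist_nonneg (sq_nonneg _)
  have hJ : 0 ≤ (Metric.closedBall t (2 * ε)).indicator (fun _ => 3 / ε) s :=
    indicator_nonneg (fun _ _ => by positivity) s
  have hk1 : ∀ c : ℝ, 0 < c → (ε < ‖γ s - γ t‖ → c ≤ ‖γ s - γ t‖) →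
      ‖{s : ℝ | ε < ‖γ s - γ t‖}.indicator (fun s => z / (γ s - γ t)) s‖ ≤ ‖z‖ * (1 / c) := by
    intro c hc hh
    by_cases hm : ε < ‖γ s - γ t‖
    · rw [indicator_of_mem (show s ∈ {s : ℝ | ε < ‖γ s - γ t‖} from hm), norm_div, div_eq_mul_one_div]
      exact mul_le_mul_of_nonneg_left (one_div_le_one_div_of_le hc (hh hm)) hz
    · rw [indicator_of_notMem (show s ∉ {s : ℝ | ε < ‖γ s - γ t‖} from hm), norm_zero]
      positivity
  have hk2 : ∀ c : ℝ, 0 < c → (ε < |s - t| → c ≤ 9 / 10 * |s - t|) →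
      ‖({s : ℝ | ε < |s - t|} ∩ Ico α (α + 1)).indicator (fun s => z / u / (G a s - G a t)) s‖ ≤
        ‖z‖ * (1 / c) := by
    intro c hc hh
    by_cases hm : s ∈ {s : ℝ | ε < |s - t|} ∩ Ico α (α + 1)
    · rw [indicator_of_mem hm, norm_div, norm_div, hg.nu, div_one, div_eq_mul_one_div]
      exact mul_le_mul_of_nonneg_left
        (one_div_le_one_div_of_le hc ((hh hm.1).trans hG)) hz
    · rw [indicator_of_notMem hm, norm_zero]
      positivity
  by_cases hst : ρ ≤ |s - t|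
  · -- far
    have h1 := hk1 κ hκ fun _ => hg.far t ht s hs hst
    have h2 := hk2 (ρ / 2) (by positivity) fun _ => by linarith
    have h3 := norm_sub_le ({s : ℝ | ε < ‖γ s - γ t‖}.indicator (fun s => z / (γ s - γ t)) s)
      (({s : ℝ | ε < |s - t|} ∩ Ico α (α + 1)).indicator (fun s => z / u / (G a s - G a t)) s)
    have h4 : ‖z‖ * (1 / κ) + ‖z‖ * (1 / (ρ / 2)) = ‖z‖ * (1 / κ + 2 / ρ) := by
      field_simp
    nlinarith [mul_nonneg hz hI, mul_nonneg hz hJ]
  · push Not at hst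
    have hline := hg.line t ht s hs hst
    have hlow : 19 / 20 * |s - t| ≤ ‖γ s - γ t‖ := by
      have h1 : ‖u * ((s : ℂ) - t)‖ = |s - t| := by
        rw [norm_mul, hg.nu, one_mul, ← Complex.ofReal_sub, Complex.norm_real, Real.norm_eq_abs]
      have h2 : ‖u * ((s : ℂ) - t)‖ ≤ ‖γ s - γ t‖ + ‖γ s - γ t - u * ((s : ℂ) - t)‖ := by
        have := norm_sub_le (γ s - γ t) (γ s - γ t - u * ((s : ℂ) - t))
        simpa using this
      rw [h1] at h2
      linarith
    by_cases h2ε : |s - t| ≤ 2 * ε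
    · have h1 := hk1 ε hε fun h => h.le
      have h2 := hk2 (9 / 10 * ε) (by positivity) fun h => by
        have := h.le
        linarith
      have h3 := norm_sub_le ({s : ℝ | ε < ‖γ s - γ t‖}.indicator (fun s => z / (γ s - γ t)) s)
        (({s : ℝ | ε < |s - t|} ∩ Ico α (α + 1)).indicator (fun s => z / u / (G a s - G a t)) s)
      have h5 : (Metric.closedBall t (2 * ε)).indicator (fun _ => 3 / ε) s = 3 / ε := by
        rw [indicator_of_mem]
        rw [Metric.mem_closedBall, Real.dist_eq]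
        exact h2ε
      have h6 : 1 / ε + 1 / (9 / 10 * ε) ≤ 3 / ε := by
        have h7 : 1 / (9 / 10 * ε) = (10 / 9) * (1 / ε) := by
          field_simp
        have h8 : 3 / ε = 3 * (1 / ε) := by ring
        rw [h7, h8]
        have : 0 < 1 / ε := by positivity
        linarith
      have h9 : 0 ≤ 1 / κ + 2 / ρ := by positivity
      have h10 := mul_le_mul_of_nonneg_left h6 hz
      rw [h5]
      nlinarith [mul_nonneg hz hI, mul_nonneg hz h9]
    · push Not at h2ε
      have hpos : 0 < |s - t| := lt_trans (by positivity) h2ε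
      have hm1 : s ∈ {s : ℝ | ε < ‖γ s - γ t‖} := by
        show ε < ‖γ s - γ t‖
        nlinarith
      have hαt := hα t ht
      have hab := abs_lt.1 hst
      have hm2 : s ∈ {s : ℝ | ε < |s - t|} ∩ Ico α (α + 1) := by
        refine ⟨?_, ?_, ?_⟩
        · show ε < |s - t|
          linarith
        · have := hg.ρle
          linarith
        · have := hg.ρle
          linarith
      rw [indicator_of_mem hm1, indicator_of_mem hm2]
      have hn := num_le hg ha hE ht hs hst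
      have hγne : γ s - γ t ≠ 0 := by
        intro h
        rw [h, norm_zero] at hlow
        nlinarith
      have hGne : G a s - G a t ≠ 0 := by
        intro h
        rw [h, norm_zero] at hG
        nlinarith
      have hune : u ≠ 0 := by
        intro h
        have := hg.nu
        rw [h, norm_zero] at this
        exact zero_ne_one this
      have heq : z / (γ s - γ t) - z / u / (G a s - G a t) =
          z * ((u * G a s - γ s) / ((γ s - γ t) * (u * (G a s - G a t)))) := by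
        have hEt := hE t ht
        have h1 : u * (G a s - G a t) - (γ s - γ t) = u * G a s - γ s := by
          rw [mul_sub, hEt]; ring
        rw [← h1]
        field_simp
      rw [heq, norm_mul, norm_div, norm_mul, norm_mul, hg.nu, one_mul]
      have hden : 3 / 4 * |s - t| ^ 2 ≤ ‖γ s - γ t‖ * ‖G a s - G a t‖ := by
        have := mul_le_mul hlow hG (by positivity) (norm_nonneg _)
        nlinarith [sq_nonneg (|s - t|)]
      have h8 : ‖u * G a s - γ s‖ / (‖γ s - γ t‖ * ‖G a s - G a t‖) ≤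
          Metric.infDist s E / (s - t) ^ 2 := by
        rw [← sq_abs (s - t)]
        rw [div_le_div_iff₀ (lt_of_lt_of_le (by positivity) hden) (by positivity)]
        have hid : 0 ≤ Metric.infDist s E := Metric.infDist_nonneg
        calc ‖u * G a s - γ s‖ * |s - t| ^ 2 ≤ 3 / 20 * Metric.infDist s E * |s - t| ^ 2 :=
              mul_le_mul_of_nonneg_right hn (by positivity)
          _ ≤ Metric.infDist s E * (3 / 4 * |s - t| ^ 2) := by
              nlinarith [mul_nonneg hid (sq_nonneg |s - t|)]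
          _ ≤ _ := mul_le_mul_of_nonneg_left hden hid
      have h9 : 0 ≤ 1 / κ + 2 / ρ := by positivity
      exact mul_le_mul_of_nonneg_left (by linarith) hz


/-- The comparison of the two truncated integrals. -/
theorem integral_le {L : ℝ} {γ : ℝ → ℂ} {E : Set ℝ} {u : ℂ} {ρ κ : ℝ} {a : ℝ → ℂ}
    (hγ : LipschitzWith 1 γ)
    (hg : Good L γ E u ρ κ) (ha : LipschitzWith (1 / 10) a) (hE : ∀ s ∈ E, u * G a s = γ s)
    {α : ℝ} (hα : ∀ t ∈ E, α < t - 1 / 4 ∧ t + 1 / 4 < α + 1)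
    {f : ℝ → ℂ} (hf : Measurable f) (hfi : IntegrableOn f (Icc (0 : ℝ) L))
    {t ε : ℝ} (ht : t ∈ E) (hε : 0 < ε) :
    ‖∫ s in {s : ℝ | s ∈ Set.Icc (0 : ℝ) L ∧ ε < ‖γ s - γ t‖}, f s * deriv γ s / (γ s - γ t)‖ₑ ≤
      ‖∫ s in {s : ℝ | ε < |s - t|},
            (Icc (0 : ℝ) L ∩ Ico α (α + 1)).indicator (fun s => f s * deriv γ s / u) s /
              (G a s - G a t)‖ₑ +
      (ENNReal.ofReal (1 / κ + 2 / ρ) * (∫⁻ s in Icc (0 : ℝ) L, ‖f s‖ₑ) +
        (∫⁻ s in Icc (0 : ℝ) L, ‖f s‖ₑ * ENNReal.ofReal (Metric.infDist s E / (s - t) ^ 2)) +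
        ENNReal.ofReal (3 / ε) *
          ∫⁻ s in Metric.closedBall t (2 * ε), (Icc (0 : ℝ) L).indicator (fun s => ‖f s‖ₑ) s) := by
  have hγc : Continuous γ := hγ.continuous
  have hGc : Continuous (G a) := by
    unfold G
    exact Complex.continuous_ofReal.add ha.continuous
  have hdm : Measurable (deriv γ) := measurable_deriv γ
  have hd1 : ∀ s, ‖deriv γ s‖ ≤ 1 := fun s => by
    simpa using norm_deriv_le_of_lipschitz hγ (x₀ := s)
  have hmA : MeasurableSet {s : ℝ | ε < ‖γ s - γ t‖} :=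
    measurableSet_lt measurable_const (hγc.sub continuous_const).norm.measurable
  have hmB0 : MeasurableSet {s : ℝ | ε < |s - t|} :=
    measurableSet_lt measurable_const (continuous_id.sub continuous_const).abs.measurable
  have hmB : MeasurableSet ({s : ℝ | ε < |s - t|} ∩ Ico α (α + 1)) := hmB0.inter measurableSet_Ico
  set k1 : ℝ → ℂ := fun s => f s * deriv γ s / (γ s - γ t) with hk1
  set k2 : ℝ → ℂ := fun s => f s * deriv γ s / u / (G a s - G a t) with hk2
  set I1 : ℝ → ℂ := {s : ℝ | ε < ‖γ s - γ t‖}.indicator k1 with hI1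
  set I2 : ℝ → ℂ := ({s : ℝ | ε < |s - t|} ∩ Ico α (α + 1)).indicator k2 with hI2
  have hk1m : Measurable k1 := (hf.mul hdm).div (hγc.sub continuous_const).measurable
  have hk2m : Measurable k2 :=
    ((hf.mul hdm).div measurable_const).div (hGc.sub continuous_const).measurable
  have hI1m : Measurable I1 := hk1m.indicator hmA
  have hI2m : Measurable I2 := hk2m.indicator hmB
  have hfd : ∀ s, ‖f s * deriv γ s‖ ≤ ‖f s‖ := fun s => by
    rw [norm_mul]
    exact mul_le_of_le_one_right (norm_nonneg _) (hd1 s)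
  have hi1 : IntegrableOn I1 (Icc (0 : ℝ) L) := by
    refine (hfi.norm.mul_const (1 / ε)).mono' hI1m.aestronglyMeasurable ?_
    refine Eventually.of_forall fun s => ?_
    by_cases hm : ε < ‖γ s - γ t‖
    · rw [hI1, indicator_of_mem (show s ∈ {s : ℝ | ε < ‖γ s - γ t‖} from hm), hk1]
      simp only
      rw [norm_div, div_eq_mul_one_div]
      exact mul_le_mul (hfd s) (one_div_le_one_div_of_le hε hm.le) (by positivity) (norm_nonneg _)
    · rw [hI1, indicator_of_notMem (show s ∉ {s : ℝ | ε < ‖γ s - γ t‖} from hm), norm_zero]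
      positivity
  have hi2 : IntegrableOn I2 (Icc (0 : ℝ) L) := by
    refine (hfi.norm.mul_const (1 / (9 / 10 * ε))).mono' hI2m.aestronglyMeasurable ?_
    refine Eventually.of_forall fun s => ?_
    by_cases hm : s ∈ {s : ℝ | ε < |s - t|} ∩ Ico α (α + 1)
    · rw [hI2, indicator_of_mem hm, hk2]
      simp only
      rw [norm_div, norm_div, hg.nu, div_one, div_eq_mul_one_div]
      have h1 : ε < |s - t| := hm.1
      have h2 := G_lower ha s t
      exact mul_le_mul (hfd s) (one_div_le_one_div_of_le (by positivity) (by linarith))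
        (by positivity) (norm_nonneg _)
    · rw [hI2, indicator_of_notMem hm, norm_zero]
      positivity
  have e1 : ∫ s in {s : ℝ | s ∈ Set.Icc (0 : ℝ) L ∧ ε < ‖γ s - γ t‖}, k1 s =
      ∫ s in Icc (0 : ℝ) L, I1 s := by
    rw [hI1, setIntegral_indicator hmA]
    rfl
  have e2 : ∫ s in {s : ℝ | ε < |s - t|},
            (Icc (0 : ℝ) L ∩ Ico α (α + 1)).indicator (fun s => f s * deriv γ s / u) s /
              (G a s - G a t) = ∫ s in Icc (0 : ℝ) L, I2 s := by
    rw [hI2, setIntegral_indicator hmB]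
    have h1 : ∀ s, (Icc (0 : ℝ) L ∩ Ico α (α + 1)).indicator (fun s => f s * deriv γ s / u) s /
              (G a s - G a t) = (Icc (0 : ℝ) L ∩ Ico α (α + 1)).indicator k2 s := by
      intro s
      by_cases hm : s ∈ Icc (0 : ℝ) L ∩ Ico α (α + 1)
      · rw [indicator_of_mem hm, indicator_of_mem hm]
      · rw [indicator_of_notMem hm, indicator_of_notMem hm, zero_div]
    simp only [h1]
    rw [setIntegral_indicator (measurableSet_Icc.inter measurableSet_Ico)]
    congr 2
    ext s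
    simp only [mem_inter_iff]
    tauto
  change ‖∫ s in {s : ℝ | s ∈ Set.Icc (0 : ℝ) L ∧ ε < ‖γ s - γ t‖}, k1 s‖ₑ ≤ _
  rw [e1, e2]
  have hsub : ∫ s in Icc (0 : ℝ) L, I1 s =
      (∫ s in Icc (0 : ℝ) L, I2 s) + ∫ s in Icc (0 : ℝ) L, (I1 s - I2 s) := by
    rw [integral_sub hi1 hi2]
    ring
  rw [hsub]
  refine (enorm_add_le _ _).trans (add_le_add_right ?_ _)
  refine (enorm_integral_le_lintegral_enorm _).trans ?_
  have hpt : ∀ s ∈ Icc (0 : ℝ) L, ‖I1 s - I2 s‖ₑ ≤
      ENNReal.ofReal (1 / κ + 2 / ρ) * ‖f s‖ₑ +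
        ‖f s‖ₑ * ENNReal.ofReal (Metric.infDist s E / (s - t) ^ 2) +
        ENNReal.ofReal (3 / ε) * (Metric.closedBall t (2 * ε)).indicator (fun s => ‖f s‖ₑ) s := by
    intro s hs
    have hκ := hg.κpos
    have hρ := hg.ρpos
    have hk := kernel_le hg ha hE hα ht hε (f s * deriv γ s) hs
    have e3 : {s : ℝ | ε < ‖γ s - γ t‖}.indicator
        (fun s' => f s * deriv γ s / (γ s' - γ t)) s = I1 s := by
      rw [hI1]
      by_cases hm : s ∈ {s : ℝ | ε < ‖γ s - γ t‖}
      · rw [indicator_of_mem hm, indicator_of_mem hm]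
      · rw [indicator_of_notMem hm, indicator_of_notMem hm]
    have e4 : ({s : ℝ | ε < |s - t|} ∩ Ico α (α + 1)).indicator
        (fun s' => f s * deriv γ s / u / (G a s' - G a t)) s = I2 s := by
      rw [hI2]
      by_cases hm : s ∈ {s : ℝ | ε < |s - t|} ∩ Ico α (α + 1)
      · rw [indicator_of_mem hm, indicator_of_mem hm]
      · rw [indicator_of_notMem hm, indicator_of_notMem hm]
    rw [e3, e4] at hk
    have hA : 0 ≤ 1 / κ + 2 / ρ := by positivity
    have hI : 0 ≤ Metric.infDist s E / (s - t) ^ 2 :=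
      div_nonneg Metric.infDist_nonneg (sq_nonneg _)
    have hJ : 0 ≤ (Metric.closedBall t (2 * ε)).indicator (fun _ => 3 / ε) s :=
      indicator_nonneg (fun _ _ => by positivity) s
    have hk' : ‖I1 s - I2 s‖ ≤ ‖f s‖ * ((1 / κ + 2 / ρ) + Metric.infDist s E / (s - t) ^ 2 +
        (Metric.closedBall t (2 * ε)).indicator (fun _ => 3 / ε) s) :=
      hk.trans (mul_le_mul_of_nonneg_right (hfd s) (by positivity))
    rw [← ofReal_norm]
    refine (ENNReal.ofReal_le_ofReal hk').trans ?_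
    rw [ENNReal.ofReal_mul (norm_nonneg _), ENNReal.ofReal_add (by positivity) hJ,
      ENNReal.ofReal_add hA hI, ofReal_norm, mul_add, mul_add]
    refine add_le_add (add_le_add (le_of_eq (mul_comm _ _)) le_rfl) ?_
    by_cases hm : s ∈ Metric.closedBall t (2 * ε)
    · rw [indicator_of_mem hm, indicator_of_mem hm, mul_comm]
    · rw [indicator_of_notMem hm, indicator_of_notMem hm]
      simp
  have hcb : MeasurableSet (Metric.closedBall t (2 * ε)) := measurableSet_closedBall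
  have hinf : Measurable fun s : ℝ => ENNReal.ofReal (Metric.infDist s E / (s - t) ^ 2) :=
    ((Metric.continuous_infDist_pt E).measurable.div
      ((continuous_id.sub continuous_const).pow 2).measurable).ennreal_ofReal
  have hfe : Measurable fun s : ℝ => ‖f s‖ₑ := hf.enorm
  have hprod : Measurable fun s : ℝ =>
      ‖f s‖ₑ * ENNReal.ofReal (Metric.infDist s E / (s - t) ^ 2) := hfe.mul hinf
  calc ∫⁻ s in Icc (0 : ℝ) L, ‖I1 s - I2 s‖ₑ
      ≤ ∫⁻ s in Icc (0 : ℝ) L, (ENNReal.ofReal (1 / κ + 2 / ρ) * ‖f s‖ₑ +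
        ‖f s‖ₑ * ENNReal.ofReal (Metric.infDist s E / (s - t) ^ 2) +
        ENNReal.ofReal (3 / ε) *
          (Metric.closedBall t (2 * ε)).indicator (fun s => ‖f s‖ₑ) s) :=
        setLIntegral_mono' measurableSet_Icc hpt
    _ = _ := by
        rw [lintegral_add_right _ ((hfe.indicator hcb).const_mul _),
          lintegral_add_right _ hprod, lintegral_const_mul _ hfe,
          lintegral_const_mul _ (hfe.indicator hcb)]
        congr 2
        rw [lintegral_indicator hcb, lintegral_indicator measurableSet_Icc,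
          Measure.restrict_restrict hcb, Measure.restrict_restrict measurableSet_Icc, inter_comm]

/-- The short part of the kernel at a Lebesgue point. -/
theorem ball_tendsto {L : ℝ} {f : ℝ → ℂ} (hf : Measurable f)
    (hfi : IntegrableOn f (Icc (0 : ℝ) L)) :
    ∀ᵐ t : ℝ, Tendsto (fun ε : ℝ => ENNReal.ofReal (3 / ε) *
      ∫⁻ s in Metric.closedBall t (2 * ε), (Icc (0 : ℝ) L).indicator (fun s => ‖f s‖ₑ) s)
      (𝓝[>] (0 : ℝ)) (𝓝 (12 * (Icc (0 : ℝ) L).indicator (fun s => ‖f s‖ₑ) t)) := by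
  have hfe : Measurable fun s : ℝ => ‖f s‖ₑ := hf.enorm
  have hm : Measurable ((Icc (0 : ℝ) L).indicator (fun s => ‖f s‖ₑ)) :=
    hfe.indicator measurableSet_Icc
  have hfin : ∫⁻ s, (Icc (0 : ℝ) L).indicator (fun s => ‖f s‖ₑ) s ≠ ∞ := by
    rw [lintegral_indicator measurableSet_Icc]
    exact hfi.2.ne
  filter_upwards [(Besicovitch.vitaliFamily (volume : Measure ℝ)).ae_tendsto_lintegral_div
    hm.aemeasurable hfin] with t ht
  have h1 := ht.comp (Besicovitch.tendsto_filterAt (volume : Measure ℝ) t)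
  have h2 : Tendsto (fun ε : ℝ => 2 * ε) (𝓝[>] (0 : ℝ)) (𝓝[>] (0 : ℝ)) := by
    refine tendsto_nhdsWithin_iff.2 ⟨?_, ?_⟩
    · have : Tendsto (fun ε : ℝ => 2 * ε) (𝓝 (0 : ℝ)) (𝓝 (2 * 0)) :=
        tendsto_id.const_mul 2
      rw [mul_zero] at this
      exact this.mono_left nhdsWithin_le_nhds
    · filter_upwards [self_mem_nhdsWithin] with ε hε
      have : (0 : ℝ) < ε := hε
      show (0 : ℝ) < 2 * ε
      positivity
  have h3 := (ENNReal.Tendsto.const_mul (a := 12) (h1.comp h2) (Or.inr (by norm_num)))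
  refine h3.congr' ?_
  filter_upwards [self_mem_nhdsWithin] with ε hε
  have hε' : (0 : ℝ) < ε := hε
  simp only [Function.comp]
  rw [Real.volume_closedBall, div_eq_mul_inv, mul_comm (∫⁻ s in Metric.closedBall t (2 * ε), _) _,
    ← mul_assoc]
  congr 1
  rw [← ENNReal.ofReal_inv_of_pos (by positivity)]
  rw [show (12 : ℝ≥0∞) = ENNReal.ofReal 12 by norm_num, ← ENNReal.ofReal_mul (by norm_num)]
  congr 1
  field_simp
  norm_num


/-- **T10c.** The pointwise estimate on a good set. -/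
theorem taskPoint : TaskPoint := by
  intro L γ E u ρ κ hL hγ hg a ha hE α hα
  have hκ := hg.κpos
  have hρ := hg.ρpos
  refine ⟨⟨1 / κ + 2 / ρ + 12, by positivity⟩, fun f hf hf2 => ?_⟩
  set C : ℝ≥0 := ⟨1 / κ + 2 / ρ + 12, by positivity⟩ with hC
  have hC1 : ENNReal.ofReal (1 / κ + 2 / ρ) ≤ (C : ℝ≥0∞) := by
    rw [← ENNReal.ofReal_coe_nnreal]
    refine ENNReal.ofReal_le_ofReal ?_
    show 1 / κ + 2 / ρ ≤ 1 / κ + 2 / ρ + 12
    linarith
  have hC2 : (12 : ℝ≥0∞) ≤ (C : ℝ≥0∞) := by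
    rw [← ENNReal.ofReal_coe_nnreal, show (12 : ℝ≥0∞) = ENNReal.ofReal 12 by norm_num]
    refine ENNReal.ofReal_le_ofReal ?_
    show (12 : ℝ) ≤ 1 / κ + 2 / ρ + 12
    have : 0 ≤ 1 / κ + 2 / ρ := by positivity
    linarith
  have hC3 : (1 : ℝ≥0∞) ≤ (C : ℝ≥0∞) := le_trans (by norm_num) hC2
  have hfi : IntegrableOn f (Icc (0 : ℝ) L) := hf2.integrable (by norm_num)
  filter_upwards [ball_tendsto (L := L) hf hfi] with t ht htE
  set F : ℝ → ℝ≥0∞ := fun ε => ‖∫ s in {s : ℝ | ε < |s - t|},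
            (Icc (0 : ℝ) L ∩ Ico α (α + 1)).indicator (fun s => f s * deriv γ s / u) s /
              (G a s - G a t)‖ₑ with hF
  set g : ℝ → ℝ≥0∞ := fun ε => ENNReal.ofReal (3 / ε) *
      ∫⁻ s in Metric.closedBall t (2 * ε), (Icc (0 : ℝ) L).indicator (fun s => ‖f s‖ₑ) s with hgdef
  set I : ℝ≥0∞ := ∫⁻ s in Icc (0 : ℝ) L, ‖f s‖ₑ with hI
  set V : ℝ≥0∞ := ∫⁻ s in Icc (0 : ℝ) L, ‖f s‖ₑ * ENNReal.ofReal (Metric.infDist s E / (s - t) ^ 2)
    with hV
  change Amax L γ f t ≤ C * I + C * ‖f t‖ₑ + C * V + limsup F (𝓝[>] (0 : ℝ))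
  have hft : (Icc (0 : ℝ) L).indicator (fun s => ‖f s‖ₑ) t ≤ ‖f t‖ₑ :=
    indicator_le_self' (fun _ _ => bot_le) t
  refine ENNReal.le_of_forall_pos_le_add fun η hη _ => ?_
  have hev : ∀ᶠ ε in 𝓝[>] (0 : ℝ), g ε < 12 * ‖f t‖ₑ + η := by
    refine ht.eventually_lt_const ?_
    refine lt_of_le_of_lt (mul_le_mul_right hft 12) ?_
    refine ENNReal.lt_add_right (ENNReal.mul_ne_top (by norm_num) enorm_ne_top) ?_
    exact_mod_cast hη.ne'
  have hmain : ∀ᶠ ε in 𝓝[>] (0 : ℝ),
      ‖(2 * (Real.pi : ℂ) * Complex.I)⁻¹ *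
        ∫ s in {s : ℝ | s ∈ Set.Icc (0 : ℝ) L ∧ ε < ‖γ s - γ t‖},
          f s * deriv γ s / (γ s - γ t)‖ₑ ≤ F ε + (C * I + C * ‖f t‖ₑ + C * V + η) := by
    filter_upwards [hev, self_mem_nhdsWithin] with ε h1 h2
    have hε : (0 : ℝ) < ε := h2
    have h3 := integral_le hγ hg ha hE hα hf hfi htE hε
    have h4 : ‖(2 * (Real.pi : ℂ) * Complex.I)⁻¹‖ₑ ≤ 1 := by
      rw [← ofReal_norm, ← ENNReal.ofReal_one]
      refine ENNReal.ofReal_le_ofReal ?_
      rw [norm_inv, norm_mul, norm_mul, Complex.norm_I, Complex.norm_real]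
      simp only [Complex.norm_ofNat, Real.norm_eq_abs, mul_one]
      rw [abs_of_pos Real.pi_pos]
      refine inv_le_one_of_one_le₀ ?_
      have := Real.pi_gt_three
      linarith
    rw [enorm_mul]
    refine (mul_le_of_le_one_left' h4).trans (h3.trans ?_)
    refine add_le_add_right ?_ _
    have h5 : ENNReal.ofReal (1 / κ + 2 / ρ) * I ≤ C * I := mul_le_mul_left hC1 _
    have h6 : V ≤ C * V := by
      calc V = 1 * V := (one_mul V).symm
        _ ≤ C * V := mul_le_mul_left hC3 _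
    have h7 : g ε ≤ C * ‖f t‖ₑ + η :=
      h1.le.trans (add_le_add_left (mul_le_mul_left hC2 _) _)
    calc ENNReal.ofReal (1 / κ + 2 / ρ) * I + V + g ε ≤ C * I + C * V + (C * ‖f t‖ₑ + η) :=
          add_le_add (add_le_add h5 h6) h7
      _ = C * I + C * ‖f t‖ₑ + C * V + η := by ring
  unfold Amax
  refine (limsup_le_limsup hmain).trans ?_
  rw [limsup_add_const (𝓝[>] (0 : ℝ)) F _ (by isBoundedDefault) (by isBoundedDefault)]
  refine le_of_eq ?_
  ring

end Pool.Agent.H265R3.CauPoint
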