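import Pool.Agent.H961R3.Smyth.Stmts3

namespace Pool.Agent.H265R3.S18

theorem core (R : Type) (g : R → ℝ) (hg : ∀ c, 0 ≤ g c) (hs : Summable g) : ∀ n : ℕ,
    (Summable fun x : Fin n → R => ∏ j, g (x j)) ∧
      (∑' x : Fin n → R, ∏ j, g (x j)) = (∑' c, g c) ^ n := by
  intro n
  induction n with
  | zero =>
    have hfin : Finite (Fin 0 → R) := Finite.of_subsingleton
    refine ⟨Summable.of_finite, ?_⟩
    rw [tsum_eq_single (Fin.elim0 : Fin 0 → R) (fun b hb => absurd (Subsingleton.elim _ _) hb)]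
    simp
  | succ n ih =>
    obtain ⟨ih1, ih2⟩ := ih
    have hnn : ∀ x : Fin n → R, 0 ≤ ∏ j, g (x j) := fun x => Finset.prod_nonneg fun j _ => hg _
    have hg' : (0 : R → ℝ) ≤ g := hg
    have hnn' : (0 : (Fin n → R) → ℝ) ≤ fun x => ∏ j, g (x j) := hnn
    have hprod : Summable fun p : R × (Fin n → R) => g p.1 * ∏ j, g (p.2 j) :=
      Summable.mul_of_nonneg (f := g) (g := fun x : Fin n → R => ∏ j, g (x j)) hs ih1 hg' hnn'
    have hf : ∀ p : R × (Fin n → R),
        (∏ j, g ((Fin.consEquiv (fun _ => R)) p j)) = g p.1 * ∏ j, g (p.2 j) := by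
      intro p
      rw [Fin.prod_univ_succ]
      simp [Fin.consEquiv]
    have h2 : (fun p : R × (Fin n → R) => ∏ j, g ((Fin.consEquiv (fun _ => R)) p j)) =
        fun p => g p.1 * ∏ j, g (p.2 j) := funext hf
    refine ⟨?_, ?_⟩
    · rw [← (Fin.consEquiv (fun _ : Fin (n + 1) => R)).summable_iff]
      exact (h2 ▸ hprod : Summable fun p : R × (Fin n → R) =>
        ∏ j, g ((Fin.consEquiv (fun _ => R)) p j))
    · rw [← (Fin.consEquiv (fun _ : Fin (n + 1) => R)).tsum_eq]
      rw [h2, pow_succ', ← ih2]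
      exact (hs.tsum_mul_tsum ih1 hprod).symm

theorem s18 : Pool.Agent.H961R3.Smyth.S18 := fun R g hg hs n => core R g hg hs n

end Pool.Agent.H265R3.S18
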