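import Pool.Agent.H369R3.UT.Defs

/-! Task K0 of the project H369-UT (helper265). -/

set_option autoImplicit false

open Set Filter Topology Metric MeasureTheory

namespace Pool.Agent.H265R3.UTK0

open Pool.Agent.H369R3.UT

theorem kern_zero {n : ℕ} (r : ℝ) (hr : 0 < r) (w : Cn n) (h : r ≤ ‖w‖) : kern r w = 0 := by
  refine Real.smoothTransition.zero_of_nonpos ?_
  rw [sub_nonpos, one_le_div (by positivity)]
  exact pow_le_pow_left₀ hr.le h 2

theorem kern_pos {n : ℕ} (r : ℝ) (hr : 0 < r) (w : Cn n) (h : ‖w‖ < r) : 0 < kern r w := by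
  refine Real.smoothTransition.pos_of_pos ?_
  rw [sub_pos, div_lt_one (by positivity)]
  exact pow_lt_pow_left₀ h (norm_nonneg _) two_ne_zero

/-- rotation -/
noncomputable def rot {n : ℕ} (c : ℂ) (hc : ‖c‖ = 1) : Cn n ≃ₗ[ℝ] Cn n where
  toFun w := c • w
  invFun w := c⁻¹ • w
  map_add' v w := smul_add _ _ _
  map_smul' s v := by
    simp only [RingHom.id_apply]
    exact smul_comm _ _ _
  left_inv w := by
    have : c ≠ 0 := by
      intro h
      rw [h, norm_zero] at hc
      exact zero_ne_one hc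
    exact inv_smul_smul₀ this w
  right_inv w := by
    have : c ≠ 0 := by
      intro h
      rw [h, norm_zero] at hc
      exact zero_ne_one hc
    exact smul_inv_smul₀ this w

theorem rot_mp {n : ℕ} (μ : Measure (Cn n)) [μ.IsAddHaarMeasure] (c : ℂ) (hc : ‖c‖ = 1) :
    MeasurePreserving (rot (n := n) c hc).toContinuousLinearEquiv μ μ := by
  refine ⟨(rot (n := n) c hc).toContinuousLinearEquiv.continuous.measurable, ?_⟩
  have hdet : LinearMap.det ((rot (n := n) c hc : Cn n ≃ₗ[ℝ] Cn n) : Cn n →ₗ[ℝ] Cn n) ≠ 0 :=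
    (LinearEquiv.isUnit_det' _).ne_zero
  have h1 := Measure.map_linearMap_addHaar_eq_smul_addHaar μ hdet
  have h2 : Measure.map (rot (n := n) c hc).toContinuousLinearEquiv μ =
      ENNReal.ofReal |(LinearMap.det ((rot (n := n) c hc : Cn n ≃ₗ[ℝ] Cn n) :
        Cn n →ₗ[ℝ] Cn n))⁻¹| • μ := h1
  rw [h2]
  set s := ENNReal.ofReal |(LinearMap.det ((rot (n := n) c hc : Cn n ≃ₗ[ℝ] Cn n) :
        Cn n →ₗ[ℝ] Cn n))⁻¹| with hs
  have h3 : Measure.map (rot (n := n) c hc).toContinuousLinearEquiv μ (ball 0 1) =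
      μ (ball 0 1) := by
    rw [Measure.map_apply (rot (n := n) c hc).toContinuousLinearEquiv.continuous.measurable
      measurableSet_ball]
    congr 1
    ext w
    simp only [mem_preimage, mem_ball_zero_iff]
    change ‖c • w‖ < 1 ↔ ‖w‖ < 1
    rw [norm_smul, hc, one_mul]
  rw [h2, Measure.smul_apply, smul_eq_mul] at h3
  have hpos : μ (ball (0 : Cn n) 1) ≠ 0 := (measure_ball_pos μ 0 one_pos).ne'
  have hfin : μ (ball (0 : Cn n) 1) ≠ ⊤ := measure_ball_lt_top.ne
  have h4 : s * μ (ball (0 : Cn n) 1) = 1 * μ (ball (0 : Cn n) 1) := by rw [h3, one_mul]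
  have h5 : s = 1 := (ENNReal.mul_left_inj hpos hfin).1 h4
  rw [h5, one_smul]

theorem taskK0 : Pool.Agent.H369R3.UT.TaskK0 := by
  intro n μ _ r hr
  have hcont : Continuous (kern (n := n) r) := by
    refine Real.smoothTransition.continuous.comp ?_
    fun_prop
  have hsupp : HasCompactSupport (kern (n := n) r) := by
    refine HasCompactSupport.intro (isCompact_closedBall (0 : Cn n) r) fun x hx => ?_
    rw [mem_closedBall_zero_iff, not_le] at hx
    exact kern_zero r hr x hx.le
  have hnn : ∀ w : Cn n, 0 ≤ kern r w := fun w => Real.smoothTransition.nonneg _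
  refine ⟨hcont, hsupp, ?_, ?_, hnn, fun w => Real.smoothTransition.le_one _, fun w => ⟨fun h => ?_,
    fun h => kern_pos r hr w h⟩, ?_⟩
  · refine Real.smoothTransition.contDiff.comp ?_
    exact contDiff_const.sub ((contDiff_norm_sq ℂ).div_const _)
  · exact hcont.integral_pos_of_hasCompactSupport_nonneg_nonzero hsupp hnn
      (kern_pos r hr 0 (by rw [norm_zero]; exact hr)).ne'
  · by_contra hcon
    rw [kern_zero r hr w (not_lt.1 hcon)] at h
    exact lt_irrefl _ h
  · intro g θ
    set c : ℂ := Complex.exp ((θ : ℂ) * Complex.I) with hc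
    have hc1 : ‖c‖ = 1 := Complex.norm_exp_ofReal_mul_I θ
    have hmp := rot_mp μ c hc1
    have h1 := hmp.integral_comp
      (rot (n := n) c hc1).toContinuousLinearEquiv.toHomeomorph.measurableEmbedding
      (fun w => kern r w * g w)
    rw [← h1]
    refine integral_congr_ae (Eventually.of_forall fun w => ?_)
    change kern r w * g (c • w) = kern r (c • w) * g (c • w)
    have : kern r (c • w) = kern r w := by
      unfold kern
      rw [norm_smul, hc1, one_mul]
    rw [this]

end Pool.Agent.H265R3.UTK0
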